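import Pool.Agent.Helper90.Lmp.Main

/-!
# Span bisimilarity of labelled Markov processes does not imply coalgebraic bisimilarity

`LMP L S` is the type of labelled Markov processes with label set `L` on the measurable space `S`
(a subprobability kernel for each label), and `IsZigzag P P' f` says that `f` is a zigzag
morphism from `P` to `P'` (`Pool.Agent.Helper90.Lmp`).
-/

open Pool.Agent.Helper90.Lmp

universe u v

namespace Pool.Agent.Results.MP_6dbda4_lc.SpanNotDelta

variable {L : Type v} {S S' : Type u} [MeasurableSpace S] [MeasurableSpace S']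

/-- Span bisimilarity: some span of zigzag morphisms relates `s` and `s'`. -/
def SpanBisim (P : LMP L S) (P' : LMP L S') (s : S) (s' : S') : Prop :=
  ∃ (T : Type u) (_ : MeasurableSpace T) (Q : LMP L T) (f : T → S) (g : T → S'),
    IsZigzag Q P f ∧ IsZigzag Q P' g ∧ ∃ t, f t = s ∧ g t = s'

/-- Coalgebraic bisimilarity: some relation `R` containing `(s, s')` carries the structure of a
labelled Markov process for which both projections are zigzag morphisms. -/
def DeltaBisim (P : LMP L S) (P' : LMP L S') (s : S) (s' : S') : Prop :=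
  ∃ (R : Set (S × S')) (_ : MeasurableSpace R) (Q : LMP L R),
    IsZigzag Q P (fun r => r.1.1) ∧ IsZigzag Q P' (fun r => r.1.2) ∧ (s, s') ∈ R

/-- **Main theorem.** For every nonempty label set there are two labelled Markov processes and
states of them which are span bisimilar but not coalgebraically bisimilar. -/
theorem result (L : Type v) [Nonempty L] :
    ∃ (S S' : Type) (_ : MeasurableSpace S) (_ : MeasurableSpace S') (P : LMP L S)
      (P' : LMP L S') (s : S) (s' : S'), SpanBisim P P' s s' ∧ ¬ DeltaBisim P P' s s' := by
  obtain ⟨a₀⟩ := ‹Nonempty L›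
  refine ⟨St X φ₁, St X φ₂, inferInstance, inferInstance, sys a₀ thick_F, sys a₀ thick_G,
    St.root, St.root, ?_, ?_⟩
  · exact ⟨St (X × I) Phi, inferInstance, sys a₀ thick_Phi, legF.map Phi, legG.map Phi,
      legF.isZigzag a₀ thick_Phi thick_F, legG.isZigzag a₀ thick_Phi thick_G, St.root, rfl, rfl⟩
  · rintro ⟨R, hR, Q, hp, hq, hmem⟩
    exact no_bisim hp hq (fun r r' h h' => Subtype.ext (Prod.ext h h')) ⟨_, hmem⟩ rfl

end Pool.Agent.Results.MP_6dbda4_lc.SpanNotDelta
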